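import Pool.Agent.Helper95.CF.Stmts

/-! # CF: the row TLG (second copy; QHM and INTM are not used) -/

set_option autoImplicit false

namespace Pool.Agent.Helper77.CF

open MeasureTheory Filter Pool.Agent.Helper95.PW Pool.Agent.Helper95.LN
open Pool.Agent.Helper95.CF

theorem TLG (h1 : ST_TLS) (h2 : ST_APXM) (h3 : ST_LMTM) (_ : ST_QHM) (_ : ST_INTM) : ST_TLG := by
  intro z c0 hz hc0
  obtain ⟨d, c, ε, hd, hc, hε, H⟩ := h1 z c0 hz hc0
  refine ⟨d, c, hd, hc, ?_⟩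
  intro n M X Z E φ G hn hNuc hZz hSep hE hG
  obtain ⟨u, hu⟩ := h2 n M X Z E φ G hG
  obtain ⟨l1, l2, _⟩ := h3 n M X Z E φ G u hG hu
  obtain ⟨hsm, _, _, _, hres⟩ := hu
  have e1 : ∀ᶠ j in atTop, Helper95.PW.sq (u j) ≤ 2 :=
    l1.eventually_le_const (by norm_num : (1:ℝ) < 2)
  have e2 : ∀ᶠ j in atTop, 1 / 2 ≤ Helper95.PW.sq (u j) :=
    l1.eventually_const_le (by norm_num : (1 / 2:ℝ) < 1)
  have e3 : ∀ᶠ j in atTop, resM X Z E (u j) ≤ ε := hres.eventually_le_const hε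
  refine ge_of_tendsto l2 ?_
  filter_upwards [e1, e2, e3] with j hj1 hj2 hj3
  exact H n M X Z E (u j) hn hNuc hZz hSep hE (hsm j).1 hj2 hj1 hj3

end Pool.Agent.Helper77.CF
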